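import Pool.Agent.Helper49.HW.Defs

/-! Block PA of MP_074879_pr: word sums, monotonicity, total mass, Kolmogorov's maximal
inequality. -/

open Finset

namespace HW

theorem E_mono_PA (p : ℕ → ℝ) (hp : ∀ k, 0 ≤ p k) (K : ℕ) : ∀ (N : ℕ) (F G : List ℕ → ℝ),
    (∀ x : List ℕ, x.length = N → F x ≤ G x) → E p K N F ≤ E p K N G
  | 0, F, G, h => by simpa [E] using h [] rfl
  | N + 1, F, G, h => by
      simp only [E]
      apply Finset.sum_le_sum
      intro a _
      apply mul_le_mul_of_nonneg_left _ (hp a)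
      apply E_mono_PA p hp K N
      intro x hx
      exact h _ (by simp [hx])

theorem E_sum_mul_PA {ι : Type*} (p : ℕ → ℝ) (K : ℕ) (S : Finset ι) (g : ι → ℝ) : ∀ (N : ℕ)
    (F : ι → List ℕ → ℝ),
    ∑ k ∈ S, g k * E p K N (F k) = E p K N (fun x => ∑ k ∈ S, g k * F k x)
  | 0, F => by simp [E]
  | N + 1, F => by
      simp only [E]
      simp_rw [Finset.mul_sum]
      rw [Finset.sum_comm]
      apply Finset.sum_congr rfl
      intro a _
      rw [← E_sum_mul_PA p K S g N (fun k l => F k (a :: l)), Finset.mul_sum]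
      apply Finset.sum_congr rfl
      intro k _
      ring

theorem E_mul_PA (p : ℕ → ℝ) (K : ℕ) (c : ℝ) (N : ℕ) (F : List ℕ → ℝ) :
    c * E p K N F = E p K N (fun x => c * F x) := by
  have h := E_sum_mul_PA p K ({()} : Finset Unit) (fun _ => c) N (fun _ => F)
  simpa using h

theorem E_one_PA (p : ℕ → ℝ) (K : ℕ) : ∀ (N : ℕ),
    E p K N (fun _ => 1) = (∑ k ∈ range K, p k) ^ N
  | 0 => by simp [E]
  | N + 1 => by
      simp only [E]
      rw [E_one_PA p K N, ← Finset.sum_mul, pow_succ, mul_comm]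

/-- P1 (several steps, finite additivity): sum over the possible first letters `k`. -/
theorem sum_Pr_le (K N : ℕ) (γ p : ℕ → ℝ) (hγ : ∀ k, 0 ≤ γ k) (hp : ∀ k, 0 ≤ p k) (Γ : ℝ)
    (hΓ : ∀ k, γ k ≤ Γ) (A : ℕ → List ℕ → Prop) (B : List ℕ → Prop)
    (hAB : ∀ (k : ℕ) (y : List ℕ), y.length = N → stp y = -(k : ℤ) → A k y → B y) :
    ∑ k ∈ range K, γ k * Pr p K N (fun y => stp y = -(k : ℤ) ∧ A k y) ≤ Γ * Pr p K N B := by
  classical
  have hΓ0 : 0 ≤ Γ := (hγ 0).trans (hΓ 0)
  unfold Pr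
  rw [E_sum_mul_PA p K (range K) γ N _, E_mul_PA]
  apply E_mono_PA p hp K N
  intro y hy
  beta_reduce
  by_cases hex : ∃ k ∈ range K, stp y = -(k : ℤ) ∧ A k y
  · obtain ⟨k, hk, hsk, hAk⟩ := hex
    rw [Finset.sum_eq_single k]
    · rw [if_pos ⟨hsk, hAk⟩, if_pos (hAB k y hy hsk hAk)]
      simpa using hΓ k
    · intro b _ hbk
      rw [if_neg, mul_zero]
      rintro ⟨hb, -⟩
      apply hbk
      have : (b : ℤ) = k := by linarith
      exact_mod_cast this
    · intro h
      exact absurd hk h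
  · rw [Finset.sum_eq_zero]
    · split_ifs <;> simp [hΓ0]
    · intro k hk
      rw [if_neg, mul_zero]
      intro h
      exact hex ⟨k, hk, h⟩

/-- P6: total mass `≤ (∑ p)^N` (with equality for the sure event). -/
theorem Pr_le_pow (p : ℕ → ℝ) (K N : ℕ) (hp : ∀ k, 0 ≤ p k) (A : List ℕ → Prop) :
    Pr p K N A ≤ (∑ k ∈ range K, p k) ^ N := by
  classical
  rw [← E_one_PA p K N]
  unfold Pr
  apply E_mono_PA p hp K N
  intro y _
  split_ifs <;> norm_num

theorem stp_cons_PA (a : ℕ) (y : List ℕ) : stp (a :: y) = (a : ℤ) - 1 + stp y := by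
  simp [stp]

theorem Pr_congr_PA (p : ℕ → ℝ) (K N : ℕ) (A B : List ℕ → Prop) (h : ∀ y, A y ↔ B y) :
    Pr p K N A = Pr p K N B := by
  have : A = B := funext fun y => propext (h y)
  rw [this]

theorem Pr_succ_PA (p : ℕ → ℝ) (K N : ℕ) (A : List ℕ → Prop) :
    Pr p K (N + 1) A = ∑ a ∈ range K, p a * Pr p K N (fun y => A (a :: y)) := by
  simp only [Pr, E]

theorem kolm_aux_PA (p : ℕ → ℝ) (K : ℕ) (hp : ∀ k, 0 ≤ p k) (hp1 : ∑ k ∈ range K, p k = 1)
    (ε σ2 lam : ℝ) (hε : ε = ∑ k ∈ range K, (1 - (k : ℝ)) * p k)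
    (hσ : σ2 = ∑ k ∈ range K, ((k : ℝ) - 1) ^ 2 * p k) (hl : 0 < lam) :
    ∀ (N : ℕ) (r : ℝ),
    Pr p K N (fun y => ∃ t ≤ N, lam ≤ |r + ((stp (y.take t) : ℤ) : ℝ) + ε * t|) ≤
      (r ^ 2 + N * σ2) / lam ^ 2 := by
  have hσ0 : 0 ≤ σ2 := by
    rw [hσ]
    exact Finset.sum_nonneg fun k _ => mul_nonneg (sq_nonneg _) (hp k)
  have hbig : ∀ (N : ℕ) (r : ℝ) (A : List ℕ → Prop), lam ≤ |r| →
      Pr p K N A ≤ (r ^ 2 + N * σ2) / lam ^ 2 := by
    intro N r A hr
    have h1 : Pr p K N A ≤ 1 := by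
      have := Pr_le_pow p K N hp A
      rwa [hp1, one_pow] at this
    refine h1.trans ?_
    rw [le_div_iff₀ (by positivity), one_mul]
    have h2 : lam ^ 2 ≤ r ^ 2 := by
      rw [← sq_abs r]
      exact pow_le_pow_left₀ hl.le hr 2
    have h3 : (0 : ℝ) ≤ N * σ2 := by positivity
    linarith
  intro N
  induction N with
  | zero =>
    intro r
    by_cases hr : lam ≤ |r|
    · exact hbig 0 r _ hr
    · have : Pr p K 0 (fun y => ∃ t ≤ 0, lam ≤ |r + ((stp (y.take t) : ℤ) : ℝ) + ε * t|) = 0 := by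
        simp only [Pr, E]
        rw [if_neg]
        rintro ⟨t, ht, h⟩
        have ht0 : t = 0 := by omega
        subst ht0
        simp [stp] at h
        exact hr h
      rw [this]
      positivity
  | succ N ih =>
    intro r
    by_cases hr : lam ≤ |r|
    · exact hbig (N + 1) r _ hr
    · rw [Pr_succ_PA]
      have hstep : ∀ a ∈ range K,
          p a * Pr p K N (fun y => ∃ t ≤ N + 1,
            lam ≤ |r + ((stp ((a :: y).take t) : ℤ) : ℝ) + ε * t|) ≤
          p a * (((r + ((a : ℝ) - 1) + ε) ^ 2 + N * σ2) / lam ^ 2) := by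
        intro a _
        apply mul_le_mul_of_nonneg_left _ (hp a)
        rw [Pr_congr_PA p K N _ (fun y => ∃ t ≤ N,
          lam ≤ |(r + ((a : ℝ) - 1) + ε) + ((stp (y.take t) : ℤ) : ℝ) + ε * t|)]
        · exact ih _
        · intro y
          constructor
          · rintro ⟨t, ht, h⟩
            rcases t with _ | t
            · exfalso
              simp [stp] at h
              exact hr h
            · refine ⟨t, by omega, ?_⟩
              rw [List.take_succ_cons, stp_cons_PA] at h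
              push_cast at h
              have he : r + ((a : ℝ) - 1) + ε + ((stp (y.take t) : ℤ) : ℝ) + ε * t
                  = r + ((a : ℝ) - 1 + ((stp (y.take t) : ℤ) : ℝ)) + ε * (t + 1) := by ring
              rw [he]
              exact h
          · rintro ⟨t, ht, h⟩
            refine ⟨t + 1, by omega, ?_⟩
            rw [List.take_succ_cons, stp_cons_PA]
            push_cast
            have he : r + ((a : ℝ) - 1) + ε + ((stp (y.take t) : ℤ) : ℝ) + ε * t
                = r + ((a : ℝ) - 1 + ((stp (y.take t) : ℤ) : ℝ)) + ε * (t + 1) := by ring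
            rw [← he]
            exact h
      refine (Finset.sum_le_sum hstep).trans ?_
      have hcalc : ∑ a ∈ range K, p a * (((r + ((a : ℝ) - 1) + ε) ^ 2 + N * σ2) / lam ^ 2) =
          (r ^ 2 + N * σ2 + (σ2 - ε ^ 2)) / lam ^ 2 := by
        have e1 : ∀ a ∈ range K, p a * (((r + ((a : ℝ) - 1) + ε) ^ 2 + N * σ2) / lam ^ 2) =
            ((r + ε) ^ 2 + N * σ2) / lam ^ 2 * p a +
            (-(2 * (r + ε)) / lam ^ 2) * ((1 - (a : ℝ)) * p a) +
            1 / lam ^ 2 * (((a : ℝ) - 1) ^ 2 * p a) := by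
          intro a _
          field_simp
          ring
        rw [Finset.sum_congr rfl e1, Finset.sum_add_distrib, Finset.sum_add_distrib,
          ← Finset.mul_sum, ← Finset.mul_sum, ← Finset.mul_sum, hp1, ← hε, ← hσ]
        field_simp
        ring
      rw [hcalc]
      push_cast
      apply div_le_div_of_nonneg_right _ (by positivity)
      nlinarith [sq_nonneg ε]

/-- P2: Kolmogorov's maximal inequality. -/
theorem Pr_kolmogorov (p : ℕ → ℝ) (K N : ℕ) (hp : ∀ k, 0 ≤ p k) (hp1 : ∑ k ∈ range K, p k = 1)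
    (ε σ2 lam : ℝ) (hε : ε = ∑ k ∈ range K, (1 - (k : ℝ)) * p k)
    (hσ : σ2 = ∑ k ∈ range K, ((k : ℝ) - 1) ^ 2 * p k) (hl : 0 < lam) :
    Pr p K N (fun y => ∃ t ≤ N, lam ≤ |((stp (y.take t) : ℤ) : ℝ) + ε * t|) ≤
      N * σ2 / lam ^ 2 := by
  have h := kolm_aux_PA p K hp hp1 ε σ2 lam hε hσ hl N 0
  have he : (fun y : List ℕ => ∃ t ≤ N, lam ≤ |(0 : ℝ) + ((stp (y.take t) : ℤ) : ℝ) + ε * t|) =
      (fun y => ∃ t ≤ N, lam ≤ |((stp (y.take t) : ℤ) : ℝ) + ε * t|) := by
    funext y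
    simp
  rw [he] at h
  simpa using h

end HW
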